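import Pool.Agent.Helper55.TA.ClassC

/-!
# MP_7680f0_co: t-perfect graphs have colourings with few monochromatic edges
-/

set_option autoImplicit false

namespace Pool.Agent.Helper55.TE

open SimpleGraph Finset TPA

variable {V : Type*} [Fintype V] [DecidableEq V] {G : SimpleGraph V}

/-- no odd cycle of `G` inside `W` is shorter than `2 l + 1` -/
def OG (G : SimpleGraph V) (W : Finset V) (l : ℕ) : Prop :=
  ∀ (u : V) (c : G.Walk u u), c.IsCycle → Odd c.length → (∀ v ∈ c.support.tail, v ∈ W) → 2 * l + 1 ≤ c.length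

/-- the constant on `W` -/
noncomputable def xv (W : Finset V) (l : ℕ) (v : V) : ℝ := if v ∈ W then (l : ℝ) / (2 * l + 1) else 0

theorem xv_nonneg (W : Finset V) (l : ℕ) (v : V) : 0 ≤ xv W l v := by
  unfold xv
  split_ifs
  · positivity
  · exact le_refl _

theorem xv_le (W : Finset V) (l : ℕ) (v : V) : xv W l v ≤ (l : ℝ) / (2 * l + 1) := by
  unfold xv
  split_ifs
  · exact le_refl _
  · positivity

theorem xv_half (l : ℕ) : (l : ℝ) / (2 * l + 1) ≤ 1 / 2 := by
  rw [div_le_div_iff₀ (by positivity) (by norm_num)]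
  linarith

theorem card_tail {u : V} {c : G.Walk u u} (hc : c.IsCycle) : c.support.tail.toFinset.card = c.length := by
  rw [List.toFinset_card_of_nodup hc.support_nodup]
  simp

theorem xv_mem {W : Finset V} {l : ℕ} (h : OG G W l) : xv W l ∈ TStab G := by
  refine ⟨xv_nonneg W l, fun u v _ => ?_, fun u c hc ho => ?_⟩
  · have := xv_half l
    linarith [xv_le W l u, xv_le W l v]
  · have hcard := card_tail hc
    have h3 : 3 ≤ c.length := hc.three_le_length
    have h3' : (3 : ℝ) ≤ c.length := by exact_mod_cast h3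
    by_cases hW : ∀ v ∈ c.support.tail, v ∈ W
    · have h1 := h u c hc ho hW
      have h1' : 2 * (l : ℝ) + 1 ≤ c.length := by exact_mod_cast h1
      have h2 : ∑ v ∈ c.support.tail.toFinset, xv W l v ≤ c.length * ((l : ℝ) / (2 * l + 1)) := by
        refine (Finset.sum_le_card_nsmul _ _ _ fun v _ => xv_le W l v).trans ?_
        rw [hcard, nsmul_eq_mul]
      refine h2.trans ?_
      rw [mul_div_assoc', div_le_div_iff₀ (by positivity) (by norm_num)]
      nlinarith
    · push Not at hW
      obtain ⟨z, hz, hzW⟩ := hW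
      have hz' : z ∈ c.support.tail.toFinset := List.mem_toFinset.2 hz
      have h0 : xv W l z = 0 := by
        unfold xv
        rw [if_neg hzW]
      rw [← Finset.add_sum_erase _ _ hz', h0, zero_add]
      have h2 : ∑ v ∈ c.support.tail.toFinset.erase z, xv W l v ≤ ((c.length : ℝ) - 1) * ((l : ℝ) / (2 * l + 1)) := by
        refine (Finset.sum_le_card_nsmul _ _ _ fun v _ => xv_le W l v).trans ?_
        rw [Finset.card_erase_of_mem hz', hcard, nsmul_eq_mul, Nat.cast_sub (by omega), Nat.cast_one]
      refine h2.trans ?_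
      have := xv_half l
      nlinarith

/-- One step: random stable sets that meet all the shortest odd cycles inside `W` and most of the edges. -/
theorem step (hG : TP G) {W : Finset V} {l : ℕ} (hl : 1 ≤ l) (h : OG G W l) :
    ∃ (ι : Type) (t : Finset ι) (lam : ι → ℝ) (S : ι → Finset V), (∀ i ∈ t, 0 < lam i) ∧ ∑ i ∈ t, lam i = 1 ∧
      (∀ i ∈ t, S i ⊆ W ∧ G.IsIndepSet (S i : Set V) ∧ OG G (W \ S i) (l + 1)) ∧
      ∀ u v, G.Adj u v → u ∈ W → v ∈ W → ∑ i ∈ t with u ∉ S i ∧ v ∉ S i, lam i = 1 / (2 * l + 1) := by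
  classical
  have hx := hG (xv W l) (xv_mem h) fun v => by
    have := xv_half l
    linarith [xv_le W l v]
  unfold Stab at hx
  rw [_root_.convexHull_eq] at hx
  obtain ⟨ι, t₀, lam, z, h00, h01, hz, hc⟩ := hx
  rw [Finset.centerMass_eq_of_sum_1 _ _ h01] at hc
  -- only the positive weights
  obtain ⟨t, ht⟩ : ∃ t : Finset ι, t = t₀.filter fun i => lam i ≠ 0 := ⟨_, rfl⟩
  have hsub : ∀ F : ι → ℝ, ∑ i ∈ t, lam i * F i = ∑ i ∈ t₀, lam i * F i := by
    intro F
    rw [ht]
    refine Finset.sum_filter_of_ne fun i _ h1 h2 => h1 ?_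
    rw [h2, zero_mul]
  have h1 : ∑ i ∈ t, lam i = 1 := by
    have := hsub fun _ => 1
    simp only [mul_one] at this
    rw [this, h01]
  have hpos : ∀ i ∈ t, 0 < lam i := by
    intro i hi
    rw [ht] at hi
    obtain ⟨h2, h3⟩ := Finset.mem_filter.1 hi
    exact lt_of_le_of_ne (h00 i h2) (Ne.symm h3)
  have hmem : ∀ i ∈ t, i ∈ t₀ := by
    intro i hi
    rw [ht] at hi
    exact (Finset.mem_filter.1 hi).1
  have hcv : ∀ v, ∑ i ∈ t, lam i * z i v = xv W l v := by
    intro v
    rw [hsub, ← hc, Finset.sum_apply]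
    rfl
  choose! T hT hzT using fun i (hi : i ∈ t) => hz i (hmem i hi)
  have hz0 : ∀ j ∈ t, ∀ v, 0 ≤ z j v := by
    intro j hj v
    rw [hzT j hj]
    exact Set.indicator_nonneg (fun _ _ => zero_le_one) v
  have hTW : ∀ i ∈ t, ∀ v ∈ T i, v ∈ W := by
    intro i hi v hv
    by_contra hvW
    have h2 := hcv v
    have h3 : xv W l v = 0 := by
      unfold xv
      rw [if_neg hvW]
    rw [h3] at h2
    have h4 := (Finset.sum_eq_zero_iff_of_nonneg fun j hj => mul_nonneg (hpos j hj).le (hz0 j hj v)).1 h2 i hi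
    have h5 : z i v = 1 := by
      rw [hzT i hi]
      simp [hv]
    rw [h5, mul_one] at h4
    exact (hpos i hi).ne' h4
  refine ⟨ι, t, lam, fun i => Finset.univ.filter fun v => v ∈ T i, hpos, h1, fun i hi => ⟨?_, ?_, ?_⟩, ?_⟩
  · intro v hv
    exact hTW i hi v (Finset.mem_filter.1 hv).2
  · intro a ha b hb hab
    simp only [Finset.coe_filter, Finset.mem_univ, true_and] at ha hb
    exact hT i hi ha hb hab
  · -- the shortest odd cycles
    intro u c hcy ho hcW
    have hcW' : ∀ v ∈ c.support.tail, v ∈ W ∧ v ∉ T i := by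
      intro v hv
      have h2 := Finset.mem_sdiff.1 (hcW v hv)
      exact ⟨h2.1, fun h3 => h2.2 (Finset.mem_filter.2 ⟨Finset.mem_univ _, h3⟩)⟩
    have h2 := h u c hcy ho fun v hv => (hcW' v hv).1
    have h3 : c.length ≠ 2 * l + 1 := by
      intro h3
      have h4 : ∑ v ∈ c.support.tail.toFinset, xv W l v = l := by
        have h5 : ∀ v ∈ c.support.tail.toFinset, xv W l v = (l : ℝ) / (2 * l + 1) := by
          intro v hv
          unfold xv
          rw [if_pos (hcW' v (List.mem_toFinset.1 hv)).1]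
        rw [Finset.sum_congr rfl h5, Finset.sum_const, card_tail hcy, h3, nsmul_eq_mul]
        push_cast
        field_simp
      have h5 : ∑ j ∈ t, lam j * ∑ v ∈ c.support.tail.toFinset, z j v = l := by
        rw [← h4]
        simp only [Finset.mul_sum]
        rw [Finset.sum_comm]
        exact Finset.sum_congr rfl fun v _ => hcv v
      have h6 : ∀ j ∈ t, ∑ v ∈ c.support.tail.toFinset, z j v ≤ l := by
        intro j hj
        have h7 := (stab_subset G (subset_convexHull ℝ _ (hz j (hmem j hj)))).2.2 u c hcy ho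
        rw [h3] at h7
        refine h7.trans (le_of_eq ?_)
        push_cast
        ring
      have h8 : ∑ v ∈ c.support.tail.toFinset, z i v = 0 := by
        refine Finset.sum_eq_zero fun v hv => ?_
        rw [hzT i hi]
        exact Set.indicator_of_notMem (hcW' v (List.mem_toFinset.1 hv)).2 _
      have h9 : ∑ j ∈ t, lam j * ∑ v ∈ c.support.tail.toFinset, z j v < ∑ j ∈ t, lam j * (l : ℝ) := by
        refine Finset.sum_lt_sum (fun j hj => mul_le_mul_of_nonneg_left (h6 j hj) (hpos j hj).le) ⟨i, hi, ?_⟩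
        rw [h8, mul_zero]
        have : (0 : ℝ) < l := by exact_mod_cast hl
        have := hpos i hi
        positivity
      rw [h5, ← Finset.sum_mul, h1, one_mul] at h9
      exact lt_irrefl _ h9
    obtain ⟨k, hk⟩ := ho
    omega
  · intro u v huv hu hv
    have e1 : ∀ i ∈ t, (if u ∉ (Finset.univ.filter fun x => x ∈ T i) ∧ v ∉ (Finset.univ.filter fun x => x ∈ T i) then lam i else 0) =
        lam i - lam i * z i u - lam i * z i v := by
      intro i hi
      rw [hzT i hi]
      simp only [Finset.mem_filter, Finset.mem_univ, true_and]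
      by_cases h3 : u ∈ T i
      · have h4 : v ∉ T i := fun h4 => hT i hi h3 h4 huv.ne huv
        rw [if_neg (fun h5 => h5.1 h3), Set.indicator_of_mem h3, Set.indicator_of_notMem h4]
        ring
      · by_cases h4 : v ∈ T i
        · rw [if_neg (fun h5 => h5.2 h4), Set.indicator_of_mem h4, Set.indicator_of_notMem h3]
          ring
        · rw [if_pos ⟨h3, h4⟩, Set.indicator_of_notMem h4, Set.indicator_of_notMem h3]
          ring
    rw [Finset.sum_filter, Finset.sum_congr rfl e1, Finset.sum_sub_distrib, Finset.sum_sub_distrib, h1, hcv, hcv]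
    unfold xv
    rw [if_pos hu, if_pos hv]
    field_simp
    ring

/-- The random colouring: `k` stable sets and the rest. -/
theorem colouring (hG : TP G) (k : ℕ) :
    ∀ {W : Finset V} {l : ℕ}, 1 ≤ l → OG G W l → ∃ (ι : Type) (t : Finset ι) (lam : ι → ℝ) (f : ι → V → ℕ),
      (∀ i ∈ t, 0 < lam i) ∧ ∑ i ∈ t, lam i = 1 ∧
      (∀ i ∈ t, (∀ v, f i v ≤ k) ∧ (∀ u v, G.Adj u v → u ∈ W → v ∈ W → f i u = f i v → f i u = 0) ∧
        OG G (W.filter fun v => f i v = 0) (l + k)) ∧
      ∀ u v, G.Adj u v → u ∈ W → v ∈ W → ∑ i ∈ t with f i u = f i v, lam i ≤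
        1 / ∏ i ∈ Finset.range k, (2 * ((l : ℝ) + i) + 1) := by
  classical
  induction k with
  | zero =>
    intro W l hl h
    refine ⟨Unit, {()}, fun _ => 1, fun _ _ => 0, fun _ _ => one_pos, by simp, fun _ _ => ⟨fun _ => le_refl _, fun _ _ _ _ _ _ => rfl, ?_⟩, ?_⟩
    · simpa using h
    · intro u v _ _ _
      simp
  | succ k ih =>
    intro W l hl h
    obtain ⟨ι, t, lam, S, hpos, hsum, hS, hE⟩ := step hG hl h
    have ih' : ∀ i ∈ t, ∃ (κ : Type) (t' : Finset κ) (lam' : κ → ℝ) (f' : κ → V → ℕ),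
        (∀ j ∈ t', 0 < lam' j) ∧ ∑ j ∈ t', lam' j = 1 ∧
        (∀ j ∈ t', (∀ v, f' j v ≤ k) ∧ (∀ u v, G.Adj u v → u ∈ W \ S i → v ∈ W \ S i → f' j u = f' j v → f' j u = 0) ∧
          OG G ((W \ S i).filter fun v => f' j v = 0) (l + 1 + k)) ∧
        ∀ u v, G.Adj u v → u ∈ W \ S i → v ∈ W \ S i → ∑ j ∈ t' with f' j u = f' j v, lam' j ≤
          1 / ∏ i ∈ Finset.range k, (2 * (((l + 1 : ℕ) : ℝ) + i) + 1) :=
      fun i hi => ih (W := W \ S i) (l := l + 1) (by omega) (hS i hi).2.2
    choose! κ t' lam' f' hpos' hsum' hf' hE' using ih'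
    refine ⟨(i : ι) × κ i, t.sigma t', fun p => lam p.1 * lam' p.1 p.2, fun p v => if v ∈ S p.1 then k + 1 else f' p.1 p.2 v, ?_, ?_, ?_, ?_⟩
    · intro p hp
      obtain ⟨h1, h2⟩ := Finset.mem_sigma.1 hp
      exact mul_pos (hpos _ h1) (hpos' _ h1 _ h2)
    · rw [Finset.sum_sigma]
      rw [← hsum]
      refine Finset.sum_congr rfl fun i hi => ?_
      show ∑ j ∈ t' i, lam i * lam' i j = lam i
      rw [← Finset.mul_sum, hsum' i hi, mul_one]
    · rintro ⟨i, j⟩ hp
      obtain ⟨h1, h2⟩ := Finset.mem_sigma.1 hp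
      obtain ⟨hf1, hf2, hf3⟩ := hf' i h1 j h2
      obtain ⟨hSW, hSi, -⟩ := hS i h1
      refine ⟨fun v => ?_, ?_, ?_⟩
      · show (if v ∈ S i then k + 1 else f' i j v) ≤ k + 1
        split_ifs
        · exact le_refl _
        · exact (hf1 v).trans (Nat.le_succ k)
      · intro u v huv hu hv
        show (if u ∈ S i then k + 1 else f' i j u) = (if v ∈ S i then k + 1 else f' i j v) → (if u ∈ S i then k + 1 else f' i j u) = 0
        by_cases h3 : u ∈ S i
        · by_cases h4 : v ∈ S i
          · exact absurd huv (hSi (Finset.mem_coe.2 h3) (Finset.mem_coe.2 h4) huv.ne)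
          · rw [if_pos h3, if_neg h4]
            intro h5
            have := hf1 v
            omega
        · by_cases h4 : v ∈ S i
          · rw [if_neg h3, if_pos h4]
            intro h5
            have := hf1 u
            omega
          · rw [if_neg h3, if_neg h4]
            exact hf2 u v huv (Finset.mem_sdiff.2 ⟨hu, h3⟩) (Finset.mem_sdiff.2 ⟨hv, h4⟩)
      · have e3 : (W.filter fun v => (if v ∈ S i then k + 1 else f' i j v) = 0) = (W \ S i).filter fun v => f' i j v = 0 := by
          ext v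
          simp only [Finset.mem_filter, Finset.mem_sdiff]
          by_cases h3 : v ∈ S i
          · simp [h3]
          · simp [h3]
        show OG G (W.filter fun v => (if v ∈ S i then k + 1 else f' i j v) = 0) (l + (k + 1))
        rw [e3, show l + (k + 1) = l + 1 + k by omega]
        exact hf3
    · intro u v huv hu hv
      rw [Finset.sum_filter, Finset.sum_sigma, Finset.prod_range_succ']
      have e2 : ∏ i ∈ Finset.range k, (2 * ((l : ℝ) + ((i + 1 : ℕ) : ℝ)) + 1) = ∏ i ∈ Finset.range k, (2 * (((l + 1 : ℕ) : ℝ) + i) + 1) := by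
        refine Finset.prod_congr rfl fun i _ => ?_
        push_cast
        ring
      have hPpos : 0 < ∏ i ∈ Finset.range k, (2 * (((l + 1 : ℕ) : ℝ) + i) + 1) := Finset.prod_pos fun i _ => by positivity
      rw [e2]
      set P := ∏ i ∈ Finset.range k, (2 * (((l + 1 : ℕ) : ℝ) + i) + 1) with hP
      have e4 : ∀ i ∈ t, ∑ j ∈ t' i, (if (if u ∈ S i then k + 1 else f' i j u) = (if v ∈ S i then k + 1 else f' i j v) then lam i * lam' i j else 0) ≤
          (if u ∉ S i ∧ v ∉ S i then lam i else 0) * (1 / P) := by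
        intro i hi
        obtain ⟨hSW, hSi, -⟩ := hS i hi
        by_cases h3 : u ∈ S i
        · by_cases h4 : v ∈ S i
          · exact absurd huv (hSi (Finset.mem_coe.2 h3) (Finset.mem_coe.2 h4) huv.ne)
          · rw [if_neg (fun h5 => h5.1 h3), zero_mul]
            refine le_of_eq (Finset.sum_eq_zero fun j hj => ?_)
            rw [if_pos h3, if_neg h4, if_neg]
            have := (hf' i hi j hj).1 v
            omega
        · by_cases h4 : v ∈ S i
          · rw [if_neg (fun h5 => h5.2 h4), zero_mul]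
            refine le_of_eq (Finset.sum_eq_zero fun j hj => ?_)
            rw [if_neg h3, if_pos h4, if_neg]
            have := (hf' i hi j hj).1 u
            omega
          · rw [if_pos ⟨h3, h4⟩]
            have h5 := hE' i hi u v huv (Finset.mem_sdiff.2 ⟨hu, h3⟩) (Finset.mem_sdiff.2 ⟨hv, h4⟩)
            rw [Finset.sum_filter] at h5
            have h6 : ∀ j ∈ t' i, (if (if u ∈ S i then k + 1 else f' i j u) = (if v ∈ S i then k + 1 else f' i j v) then lam i * lam' i j else 0) =
                lam i * (if f' i j u = f' i j v then lam' i j else 0) := by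
              intro j _
              rw [if_neg h3, if_neg h4]
              split_ifs
              · rfl
              · rw [mul_zero]
            rw [Finset.sum_congr rfl h6, ← Finset.mul_sum]
            exact mul_le_mul_of_nonneg_left h5 (hpos i hi).le
      refine (Finset.sum_le_sum e4).trans ?_
      rw [← Finset.sum_mul, ← Finset.sum_filter, hE u v huv hu hv]
      have e5 : 2 * ((l : ℝ) + ((0 : ℕ) : ℝ)) + 1 = 2 * l + 1 := by simp
      rw [e5]
      refine le_of_eq ?_
      rw [one_div_mul_one_div, mul_comm]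

end Pool.Agent.Helper55.TE
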